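import Pool.Agent.W2helper5.KA.Stm2

set_option autoImplicit false

namespace Pool.Agent.W2helper79.KA2

open Pool.Agent.W2helper5.KA2

lemma shift {M : Type} [CommGroup M] (N : ℕ) (A : ℕ → M) (hA : A N = A 0) :
    ∏ i ∈ Finset.range N, A (i + 1) = ∏ i ∈ Finset.range N, A i := by
  have h1 := Finset.prod_range_succ A N
  have h2 := Finset.prod_range_succ' A N
  rw [h2, hA] at h1
  exact mul_right_cancel h1

lemma tele {M : Type} [CommGroup M] (N : ℕ) (f f' A B : ℕ → M) (hA : A N = A 0) (hB : B N = B 0)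
    (h : ∀ i, f i * (A (i + 1) * B i) = f' i * (A i * B (i + 1))) :
    ∏ i ∈ Finset.range N, f i = ∏ i ∈ Finset.range N, f' i := by
  have h1 : ∏ i ∈ Finset.range N, (f i * (A (i + 1) * B i)) =
      ∏ i ∈ Finset.range N, (f' i * (A i * B (i + 1))) := Finset.prod_congr rfl fun i _ => h i
  rw [Finset.prod_mul_distrib, Finset.prod_mul_distrib, Finset.prod_mul_distrib,
    Finset.prod_mul_distrib, shift N A hA, shift N B hB] at h1
  exact mul_right_cancel h1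

lemma keyA {A : Type} [AddCommGroup A] (a1 a2 a3 a4 a5 b1 b2 b3 b5 c1 c3 c4 c5 d1 d2 d3 d4 : A)
    (h1 : a1 + a2 + a3 = a4 + a5) (h2 : b1 + b2 + b3 = a4 + b5) (h3 : c1 + b2 + c3 = c4 + c5)
    (h4 : d1 + d2 + d3 = d4 + c5) :
    a1 + ((a2 + d4 - c4) + (a3 + c3 - b3)) = d3 + ((b1 + d1 - c1) + (a5 + d2 - b5)) := by
  rw [← sub_eq_zero] at h1 h2 h3 h4 ⊢
  have h5 : a1 + ((a2 + d4 - c4) + (a3 + c3 - b3)) - (d3 + ((b1 + d1 - c1) + (a5 + d2 - b5))) =
      (a1 + a2 + a3 - (a4 + a5)) - (d1 + d2 + d3 - (d4 + c5)) + (c1 + b2 + c3 - (c4 + c5)) -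
        (b1 + b2 + b3 - (a4 + b5)) := by abel
  rw [h5, h1, h2, h3, h4]
  abel

lemma keyM {M : Type} [CommGroup M] (a1 a2 a3 a4 a5 b1 b2 b3 b5 c1 c3 c4 c5 d1 d2 d3 d4 : M)
    (h1 : a1 * a2 * a3 = a4 * a5) (h2 : b1 * b2 * b3 = a4 * b5) (h3 : c1 * b2 * c3 = c4 * c5)
    (h4 : d1 * d2 * d3 = d4 * c5) :
    a1 * ((a2 * d4 / c4) * (a3 * c3 / b3)) = d3 * ((b1 * d1 / c1) * (a5 * d2 / b5)) :=
  keyA (A := Additive M) a1 a2 a3 a4 a5 b1 b2 b3 b5 c1 c3 c4 c5 d1 d2 d3 d4 h1 h2 h3 h4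

/-- the cochain -/
def gam {G M : Type} [Group G] [CommGroup M] (ω : G → G → G → M) (h x y : G) : M :=
  ω h x y * ω (h * x * h⁻¹) (h * y * h⁻¹) h / ω (h * x * h⁻¹) h y

lemma conj_rel {G M : Type} [Group G] [CommGroup M] (ω : G → G → G → M) (hω : IsCoc ω)
    (h x y t : G) :
    ω x y t * (gam ω h (x * y) t * gam ω h x y) =
      ω (h * x * h⁻¹) (h * y * h⁻¹) (h * t * h⁻¹) * (gam ω h y t * gam ω h x (y * t)) := by
  have e1 := hω.coc h x y t
  have e2 := hω.coc (h * x * h⁻¹) h y t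
  have e3 := hω.coc (h * x * h⁻¹) (h * y * h⁻¹) h t
  have e4 := hω.coc (h * x * h⁻¹) (h * y * h⁻¹) (h * t * h⁻¹) h
  have i1 : h * x * h⁻¹ * h = h * x := by group
  have i2 : h * y * h⁻¹ * h = h * y := by group
  have i3 : h * t * h⁻¹ * h = h * t := by group
  have i4 : h * x * h⁻¹ * (h * y * h⁻¹) = h * (x * y) * h⁻¹ := by group
  have i5 : h * y * h⁻¹ * (h * t * h⁻¹) = h * (y * t) * h⁻¹ := by group
  rw [i1] at e2
  rw [i2, i4] at e3
  rw [i3, i4, i5] at e4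
  exact keyM _ _ _ _ _ _ _ _ _ _ _ _ _ _ _ _ _ e1 e2 e3 e4

theorem CON : P_CON := by
  intro G M _ _ _ ω hω
  refine ⟨?_, ?_⟩
  · rintro A g ⟨α, hα⟩ hg
    have h1 := tele (orderOf g) (fun i => ω g (g ^ i) g) (fun _ => 1) (fun i => α (g ^ i) g)
      (fun i => α g (g ^ i)) (by simp [pow_orderOf_eq_one]) (by simp [pow_orderOf_eq_one]) (by
        intro i
        have h2 := hα g hg (g ^ i) (A.pow_mem hg i) g hg
        show ω g (g ^ i) g * (α (g ^ (i + 1)) g * α g (g ^ i)) =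
          1 * (α (g ^ i) g * α g (g ^ (i + 1)))
        rw [one_mul, pow_succ', h2, ← pow_succ, ← pow_succ'])
    rw [z, h1, Finset.prod_const_one]
  · intro g h
    have ho : orderOf (h * g * h⁻¹) = orderOf g := by
      exact orderOf_injective (MulAut.conj h).toMonoidHom (MulAut.conj h).injective g
    rw [z, z, ho]
    symm
    apply tele (orderOf g) _ _ (fun i => gam ω h (g ^ i) g) (fun i => gam ω h g (g ^ i))
    · simp [pow_orderOf_eq_one]
    · simp [pow_orderOf_eq_one]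
    · intro i
      have h2 := conj_rel ω hω h g (g ^ i) g
      rw [← pow_succ', ← pow_succ] at h2
      rw [conj_pow]
      exact h2

end Pool.Agent.W2helper79.KA2
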